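import Pool.Agent.H623R3.JC.Main
import Pool.Agent.H623R3.JC.P_BT
import Pool.Agent.H623R3.JC.P_CALC1
import Pool.Agent.H623R3.JC.P_CALC2
import Pool.Agent.H623R3.JC.P_CLITS
import Pool.Agent.H623R3.JC.P_CODE
import Pool.Agent.H623R3.JC.P_COMPR
import Pool.Agent.H623R3.JC.P_CON
import Pool.Agent.H623R3.JC.P_DDLITS
import Pool.Agent.H623R3.JC.P_DECS
import Pool.Agent.H623R3.JC.P_FI
import Pool.Agent.H623R3.JC.P_HAT
import Pool.Agent.H623R3.JC.P_IND
import Pool.Agent.H623R3.JC.P_INJ
import Pool.Agent.H623R3.JC.P_LIMIT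
import Pool.Agent.H623R3.JC.P_NAMES
import Pool.Agent.H623R3.JC.P_NPA
import Pool.Agent.H623R3.JC.P_OS
import Pool.Agent.H623R3.JC.P_OVER
import Pool.Agent.H623R3.JC.P_PRIM
import Pool.Agent.H623R3.JC.P_SAT
import Pool.Agent.H623R3.JC.P_SKOL
import Pool.Agent.H623R3.JC.P_STEPK
import Pool.Agent.H623R3.JC.P_STR
import Pool.Agent.H623R3.JC.P_TY
import Pool.Agent.H623R3.JC.P_TYJUMP
import Pool.Agent.H623R3.JC.P_TYPES
import Pool.Agent.H623R3.JC.P_WKL

/-!
Degrees of copies of a nonstandard model of Peano arithmetic: if `a` is the degree of a copy of `M`,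
`b` is the degree of an enumeration of the standard system of `M`, and the `n`-th jumps of `a` and
`b` are equal for some `n` (for instance `n = 1`), then `b` is the degree of a copy of `M`.

Proved by helper623 (proof, assembly, steps N and 0, PRIM) and helpers 413 (IND, OVER, BT, CALC1,
CALC2, OS), 459 (NAMES, INJ, CODE, STR), 375 (COMPR, TYPES, CON), 584 (LIMIT, TYJUMP, STEPK, NPA),
910 (HAT, SKOL), 495 (FI), 652 (SAT, WKL), 806 (CLITS, DECS), 75 (TY), 656 (DDLITS), on top of
libraries of helpers 227 and 578.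
-/

set_option autoImplicit false

open FirstOrder FirstOrder.Language Pool.Agent.Helper227.EN
open Pool.Agent.H623R3.JC Pool.Agent.Helper578.JD

namespace Pool.Agent.Results.MP_1f9298_lc.SameJump

/-- Let `M` be a nonstandard model of Peano arithmetic, `a` the degree of a copy of `M`, and `b` the
degree of an enumeration of the standard system of `M`.
(1) If the `n`-th jumps of `a` and `b` are equal for some `n`, then `b` is the degree of a copy of
`M`. (2) It is enough that `b ≤ a^(n)` and `a^(n+1) ≤ b^(n+1)` for some `n`. -/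
theorem result (M : Type) [LA.Structure M] (hPA : M ⊨ PA)
    (hns : ¬ Nonempty (@FirstOrder.Language.Equiv LA M ℕ _ stdStr)) (a b : TuringDegree)
    (hb : IsEnumDeg M b) (hc : IsCopyDeg M a) :
    (∀ n, SameJump n a b → IsCopyDeg M b) ∧
    (∀ (n : ℕ) (A B : Set ℕ), deg A = a → deg B = b → Red B (jump^[n] A) →
      Red (jump^[n + 1] A) (jump^[n + 1] B) → IsCopyDeg M b) := by
  have hbt : S_bt := prf_bt prf_ind
  have hos : S_os := prf_os (prf_over prf_ind)
  have hcl : S_clits := prf_clits
  exact final_of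
    (fun M => pack_of hbt prf_calc1 prf_calc2 hos prf_ddhat prf_CON prf_TY prf_compr prf_types
      (prf_sat_of prf_prim) prf_skol (prf_ddlits prf_prim) prf_wkl prf_prim (prf_decs hcl) M)
    (fun M => main_of hbt prf_prim (prf_fi prf_limit) hcl prf_names prf_tyjump prf_stepK prf_inj
      prf_code M)
    prf_str prf_npa M hPA hns a b hb hc

end Pool.Agent.Results.MP_1f9298_lc.SameJump
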